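import Pool.Agent.Run7.h205.OHS.Defs

/-! Basic facts on strongly continuous semigroups and their generators. -/

open Filter Topology Set MeasureTheory

namespace Run7.h205.OHS

variable {E : Type*} [NormedAddCommGroup E] [NormedSpace ℂ E]
variable {T : ℝ → E →L[ℂ] E}

namespace IsC0Semigroup

lemma ii (hT : IsC0Semigroup T) (x : E) {a b : ℝ} (ha : 0 ≤ a) (hb : 0 ≤ b) :
    IntervalIntegrable (fun t => T t x) volume a b := by
  apply ContinuousOn.intervalIntegrable
  apply (hT.cont x).mono
  intro t ht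
  rw [mem_Ici]
  rcases le_total a b with h | h
  · rw [uIcc_of_le h] at ht; exact ha.trans ht.1
  · rw [uIcc_of_ge h] at ht; exact hb.trans ht.1

/-- local boundedness -/
lemma loc_bdd [CompleteSpace E] (hT : IsC0Semigroup T) (b : ℝ) :
    ∃ M : ℝ, 0 ≤ M ∧ ∀ t, 0 ≤ t → t ≤ b → ‖T t‖ ≤ M := by
  have h := banach_steinhaus (g := fun t : Icc (0:ℝ) b => T t) (by
    intro x
    have hc : ContinuousOn (fun t => T t x) (Icc 0 b) := (hT.cont x).mono Icc_subset_Ici_self
    obtain ⟨C, hC⟩ := isCompact_Icc.exists_bound_of_continuousOn hc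
    exact ⟨C, fun i => hC i i.2⟩)
  obtain ⟨C, hC⟩ := h
  refine ⟨max C 0, le_max_right _ _, fun t h0 h1 => (hC ⟨t, h0, h1⟩).trans (le_max_left _ _)⟩

/-- exponential bound from one time -/
lemma exp_bound [CompleteSpace E] (hT : IsC0Semigroup T) {a r : ℝ} (ha : 0 < a)
    (h : ‖T a‖ ≤ Real.exp (r * a)) :
    ∃ K : ℝ, 0 ≤ K ∧ ∀ t, 0 ≤ t → ‖T t‖ ≤ K * Real.exp (r * t) := by
  obtain ⟨M, hM0, hM⟩ := hT.loc_bdd a
  have hpow : ∀ n : ℕ, ‖T (n * a)‖ ≤ Real.exp (r * (n * a)) := by
    intro n
    induction n with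
    | zero =>
      simp only [Nat.cast_zero, zero_mul, mul_zero, Real.exp_zero, hT.map_zero]
      exact ContinuousLinearMap.norm_id_le
    | succ n ih =>
      have e : ((n + 1 : ℕ) : ℝ) * a = n * a + a := by push_cast; ring
      rw [e, hT.map_add _ _ (by positivity) ha.le]
      calc ‖T (n * a) * T a‖ ≤ ‖T (n * a)‖ * ‖T a‖ := norm_mul_le _ _
        _ ≤ Real.exp (r * (n * a)) * Real.exp (r * a) :=
            mul_le_mul ih h (norm_nonneg _) (Real.exp_pos _).le
        _ = _ := by rw [← Real.exp_add]; congr 1; ring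
  refine ⟨M * Real.exp (|r| * a), by positivity, fun t ht => ?_⟩
  set n := ⌊t / a⌋₊ with hn
  have h1 : (n : ℝ) * a ≤ t := by
    have := Nat.floor_le (div_nonneg ht ha.le)
    rwa [← hn, le_div_iff₀ ha] at this
  have h2 : t < ((n : ℝ) + 1) * a := by
    have := Nat.lt_floor_add_one (t / a)
    rwa [← hn, div_lt_iff₀ ha] at this
  have e : t = (n * a) + (t - n * a) := by ring
  have h3 : 0 ≤ t - n * a := by linarith
  have h4 : t - n * a ≤ a := by nlinarith
  have hb : ‖T t‖ ≤ Real.exp (r * (n * a)) * M := by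
    rw [e, hT.map_add _ _ (by positivity) h3]
    exact (norm_mul_le _ _).trans (mul_le_mul (hpow n) (hM _ h3 h4) (norm_nonneg _)
      (Real.exp_pos _).le)
  refine hb.trans ?_
  rw [mul_comm, mul_assoc]
  apply mul_le_mul_of_nonneg_left _ hM0
  rw [← Real.exp_add]
  apply Real.exp_le_exp.2
  have h5 : r * (n * a) - r * t ≤ |r| * a := by
    have : r * (n * a) - r * t = -r * (t - n * a) := by ring
    rw [this]
    calc -r * (t - n * a) ≤ |r| * (t - n * a) :=
          mul_le_mul_of_nonneg_right (neg_le_abs r) h3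
      _ ≤ |r| * a := mul_le_mul_of_nonneg_left h4 (abs_nonneg r)
  linarith

/-- some exponential bound -/
lemma exists_exp_bound [CompleteSpace E] (hT : IsC0Semigroup T) :
    ∃ w K : ℝ, 0 ≤ K ∧ ∀ t, 0 ≤ t → ‖T t‖ ≤ K * Real.exp (w * t) := by
  have : ∃ w : ℝ, ‖T 1‖ ≤ Real.exp (w * 1) := by
    refine ⟨‖T 1‖, ?_⟩
    rw [mul_one]
    linarith [Real.add_one_le_exp ‖T 1‖]
  obtain ⟨w, hw⟩ := this
  obtain ⟨K, hK⟩ := hT.exp_bound one_pos hw
  exact ⟨w, K, hK⟩

/-- `∫₀^τ T t x dt` is in the domain of the generator -/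
lemma gen_integral [CompleteSpace E] (hT : IsC0Semigroup T) (x : E) {τ : ℝ} (hτ : 0 ≤ τ) :
    IsGen T (∫ t in (0:ℝ)..τ, T t x) (T τ x - x) := by
  unfold IsGen
  have key : ∀ h : ℝ, 0 < h → T h (∫ t in (0:ℝ)..τ, T t x) - (∫ t in (0:ℝ)..τ, T t x) =
      (∫ t in τ..(τ + h), T t x) - ∫ t in (0:ℝ)..h, T t x := by
    intro h hh
    have e1 : T h (∫ t in (0:ℝ)..τ, T t x) = ∫ t in (0:ℝ)..τ, T h (T t x) :=
      ((T h).intervalIntegral_comp_comm (hT.ii x le_rfl hτ)).symm
    have e2 : ∫ t in (0:ℝ)..τ, T h (T t x) = ∫ t in (0:ℝ)..τ, T (t + h) x := by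
      apply intervalIntegral.integral_congr
      intro t ht
      rw [uIcc_of_le hτ] at ht
      simp only
      rw [add_comm t h, hT.map_add h t hh.le ht.1]
      rfl
    rw [e1, e2, intervalIntegral.integral_comp_add_right (fun t => T t x) h]
    simp only [zero_add]
    have e3 := intervalIntegral.integral_add_adjacent_intervals
      (hT.ii x le_rfl hh.le) (hT.ii x hh.le (by linarith : (0:ℝ) ≤ τ + h))
    have e4 := intervalIntegral.integral_add_adjacent_intervals
      (hT.ii x le_rfl hτ) (hT.ii x hτ (by linarith : (0:ℝ) ≤ τ + h))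
    rw [← e4] at e3
    have e5 : ∫ t in h..(τ + h), T t x = (∫ t in (0:ℝ)..τ, T t x) + (∫ t in τ..(τ + h), T t x)
        - ∫ t in (0:ℝ)..h, T t x := by
      rw [← e3]; abel
    rw [e5]; abel
  have aux : ∀ σ : ℝ, 0 ≤ σ → Tendsto (fun h : ℝ => ((h⁻¹ : ℝ) : ℂ) • ∫ t in σ..(σ + h), T t x)
      (𝓝[>] 0) (𝓝 (T σ x)) := by
    intro σ hσ
    -- work with the continuous function `fun t => T |t| x`
    have hcont : Continuous (fun t : ℝ => T |t| x) :=
      (hT.cont x).comp_continuous continuous_abs (fun t => abs_nonneg t)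
    have hd : HasDerivAt (fun u => ∫ t in σ..u, T |t| x) (T |σ| x) σ :=
      intervalIntegral.integral_hasDerivAt_right (hcont.intervalIntegrable _ _)
        (hcont.stronglyMeasurableAtFilter _ _) hcont.continuousAt
    have h1 := hd.tendsto_slope_zero_right
    rw [abs_of_nonneg hσ] at h1
    refine h1.congr' ?_
    filter_upwards [self_mem_nhdsWithin] with h hh
    have hh' : 0 < h := hh
    simp only [intervalIntegral.integral_same, sub_zero]
    rw [← Complex.coe_smul]
    congr 1
    apply intervalIntegral.integral_congr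
    intro t ht
    rw [uIcc_of_le (by linarith)] at ht
    simp only
    rw [abs_of_nonneg (hσ.trans ht.1)]
  have h2 := (aux τ hτ).sub (aux 0 le_rfl)
  simp only [hT.map_zero, zero_add] at h2
  have h3 : (1 : E →L[ℂ] E) x = x := rfl
  rw [h3] at h2
  refine h2.congr' ?_
  filter_upwards [self_mem_nhdsWithin] with h hh
  rw [key h hh, smul_sub]

/-- the derivative of an orbit in the domain -/
lemma sub_eq_integral [CompleteSpace E] (hT : IsC0Semigroup T) {x y : E} (hg : IsGen T x y)
    {τ : ℝ} (hτ : 0 ≤ τ) : T τ x - x = ∫ t in (0:ℝ)..τ, T t y := by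
  have hder : ∀ t ∈ Ioo (0:ℝ) τ, HasDerivWithinAt (fun t => T t x) (T t y) (Ioi t) t := by
    intro t ht
    rw [hasDerivWithinAt_iff_tendsto_slope']
    · have h1 : Tendsto (fun h : ℝ => T t (((h⁻¹ : ℝ) : ℂ) • (T h x - x))) (𝓝[>] 0)
          (𝓝 (T t y)) := ((T t).continuous.tendsto y).comp hg
      have h2 : Tendsto (fun u : ℝ => u - t) (𝓝[>] t) (𝓝[>] 0) := by
        apply tendsto_nhdsWithin_iff.2
        constructor
        · have : Tendsto (fun u : ℝ => u - t) (𝓝 t) (𝓝 (t - t)) :=
            (continuous_id.sub continuous_const).tendsto t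
          rw [sub_self] at this
          exact this.mono_left nhdsWithin_le_nhds
        · filter_upwards [self_mem_nhdsWithin] with u hu
          have : t < u := hu
          exact sub_pos.2 this
      refine (h1.comp h2).congr' ?_
      filter_upwards [self_mem_nhdsWithin] with u hu
      have hu' : t < u := hu
      simp only [Function.comp]
      rw [slope_def_module, map_smul, map_sub, ← Complex.coe_smul]
      congr 2
      have e : u = t + (u - t) := by ring
      conv_rhs => rw [e, hT.map_add t (u - t) ht.1.le (by linarith)]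
      rfl
    · simp
  have := intervalIntegral.integral_eq_sub_of_hasDeriv_right_of_le hτ
    ((hT.cont x).mono Icc_subset_Ici_self) hder (hT.ii y le_rfl hτ)
  rw [this, hT.map_zero]
  rfl

end IsC0Semigroup

/-- rescaled semigroup -/
noncomputable def resc (T : ℝ → E →L[ℂ] E) (μ : ℂ) : ℝ → E →L[ℂ] E :=
  fun t => Complex.exp (-(μ * t)) • T t

lemma resc_apply (T : ℝ → E →L[ℂ] E) (μ : ℂ) (t : ℝ) (x : E) :
    resc T μ t x = Complex.exp (-(μ * t)) • T t x := rfl

lemma norm_resc (T : ℝ → E →L[ℂ] E) (μ : ℂ) (t : ℝ) :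
    ‖resc T μ t‖ = Real.exp (-(μ.re * t)) * ‖T t‖ := by
  unfold resc
  rw [norm_smul, Complex.norm_exp]
  simp

lemma resc_resc (T : ℝ → E →L[ℂ] E) (μ ν : ℂ) : resc (resc T μ) ν = resc T (μ + ν) := by
  funext t
  ext x
  rw [resc_apply, resc_apply, resc_apply, smul_smul, ← Complex.exp_add]
  congr 2
  ring

lemma IsC0Semigroup.resc (hT : IsC0Semigroup T) (μ : ℂ) : IsC0Semigroup (resc T μ) where
  map_zero := by
    unfold OHS.resc
    simp [hT.map_zero]
  map_add s t hs ht := by
    unfold OHS.resc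
    rw [hT.map_add s t hs ht, smul_mul_smul_comm, ← Complex.exp_add]
    congr 2
    push_cast
    ring
  cont x := by
    simp only [resc_apply]
    apply ContinuousOn.smul _ (hT.cont x)
    fun_prop

lemma isGen_resc {μ : ℂ} {x y : E} (h : IsGen T x y) : IsGen (resc T μ) x (y - μ • x) := by
  unfold IsGen at *
  have h1 : Tendsto (fun t : ℝ => Complex.exp (-(μ * t))) (𝓝[>] 0) (𝓝 1) := by
    have : Continuous (fun t : ℝ => Complex.exp (-(μ * t))) := by fun_prop
    have h2 := this.tendsto 0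
    simp only [Complex.ofReal_zero, mul_zero, neg_zero, Complex.exp_zero] at h2
    exact h2.mono_left nhdsWithin_le_nhds
  have h2 : Tendsto (fun t : ℝ => ((t⁻¹ : ℝ) : ℂ) * (Complex.exp (-(μ * t)) - 1)) (𝓝[>] 0)
      (𝓝 (-μ)) := by
    have hd : HasDerivAt (fun t : ℝ => Complex.exp (-(μ * t))) (-μ) 0 := by
      have h3 : HasDerivAt (fun t : ℝ => -(μ * (t : ℂ))) (-(μ * 1)) 0 :=
        ((Complex.ofRealCLM.hasDerivAt (x := (0:ℝ))).const_mul μ).neg
      have h4 := h3.cexp
      simpa using h4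
    have h5 := hd.tendsto_slope_zero_right
    refine h5.congr' ?_
    filter_upwards with t
    simp [← Complex.coe_smul]
  have h3 := (h1.smul h).add (h2.smul_const x)
  have e : (1 : ℂ) • y + (-μ) • x = y - μ • x := by
    rw [one_smul, neg_smul, sub_eq_add_neg]
  rw [e] at h3
  refine h3.congr' ?_
  filter_upwards with t
  rw [resc_apply, smul_sub, smul_sub, smul_sub, smul_smul, smul_smul, smul_smul, mul_sub, sub_smul,
    mul_one, mul_comm (Complex.exp (-(μ * t)))]
  abel

lemma isGen_resc_iff {μ : ℂ} {x y : E} : IsGen (resc T μ) x y ↔ IsGen T x (y + μ • x) := by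
  constructor
  · intro h
    have h1 := isGen_resc (μ := -μ) h
    rw [resc_resc, add_neg_cancel] at h1
    have e : resc T 0 = T := by
      funext t
      ext x
      simp [resc_apply]
    rw [e, neg_smul, sub_neg_eq_add] at h1
    exact h1
  · intro h
    have := isGen_resc (μ := μ) h
    rwa [add_sub_cancel_right] at this

lemma IsResolvent.of_resc {z μ : ℂ} {R : E →L[ℂ] E} (h : IsResolvent (resc T μ) z R) :
    IsResolvent T (z + μ) R where
  right y := by
    have h1 := isGen_resc_iff.1 (h.right y)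
    have e : z • R y - y + μ • R y = (z + μ) • R y - y := by rw [add_smul]; abel
    rwa [e] at h1
  left x y hxy := by
    have h1 : IsGen (resc T μ) x (y - μ • x) := isGen_resc hxy
    have h2 := h.left x _ h1
    have e : z • x - (y - μ • x) = (z + μ) • x - y := by rw [add_smul]; abel
    rwa [e] at h2

end Run7.h205.OHS
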