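import Mathlib

/-! Strongly continuous semigroups on a complex Banach space, their generators, and ordered
Hilbert spaces: definitions. -/

open Filter Topology Set

namespace Run7.h205.OHS

section Complexification

variable {H E : Type*} [NormedAddCommGroup H] [InnerProductSpace ℝ H]
  [NormedAddCommGroup E] [InnerProductSpace ℂ E]

/-- The complex Hilbert space `E`, with the map `ι : H → E`, is the complexification `H ⊕ iH` of
the real Hilbert space `H`: `ι` is real linear, carries the inner product of `H` to the one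
of `E`, and every element of `E` is `ι x + i ι y` for some `x, y` in `H`. -/
structure IsComplexification (ι : H → E) : Prop where
  map_add : ∀ x y : H, ι (x + y) = ι x + ι y
  map_smul : ∀ (r : ℝ) (x : H), ι (r • x) = (r : ℂ) • ι x
  inner_map : ∀ x y : H, inner ℂ (ι x) (ι y) = ((inner ℝ x y : ℝ) : ℂ)
  exists_decomp : ∀ z : E, ∃ x y : H, z = ι x + Complex.I • ι y

/-- The cone `C` is normal: there is `c > 0` with `‖x‖ ≤ c ‖y‖` whenever `0 ≤ x ≤ y`. -/
def IsNormalCone (C : ProperCone ℝ H) : Prop :=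
  ∃ c : ℝ, 0 < c ∧ ∀ x y : H, x ∈ C → y - x ∈ C → ‖x‖ ≤ c * ‖y‖

/-- The cone `C` is generating: `C - C = H`. -/
def IsGeneratingCone (C : ProperCone ℝ H) : Prop :=
  ∀ x : H, ∃ a ∈ C, ∃ b ∈ C, x = a - b

end Complexification

section Semigroup

variable {E : Type*} [NormedAddCommGroup E] [NormedSpace ℂ E]

/-- `(T t)`, `t ≥ 0`, is a strongly continuous semigroup of bounded operators on `E`
(the values of `T` at negative numbers are irrelevant). -/
structure IsC0Semigroup (T : ℝ → E →L[ℂ] E) : Prop where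
  map_zero : T 0 = 1
  map_add : ∀ s t : ℝ, 0 ≤ s → 0 ≤ t → T (s + t) = T s * T t
  cont : ∀ x : E, ContinuousOn (fun t => T t x) (Ici 0)

/-- `x` is in the domain of the generator `A` of `T`, and `A x = y`. -/
def IsGen (T : ℝ → E →L[ℂ] E) (x y : E) : Prop :=
  Tendsto (fun t : ℝ => ((t⁻¹ : ℝ) : ℂ) • (T t x - x)) (𝓝[>] 0) (𝓝 y)

/-- The bounded operator `R` is the inverse of `z - A`, where `A` is the generator of `T`. -/
structure IsResolvent (T : ℝ → E →L[ℂ] E) (z : ℂ) (R : E →L[ℂ] E) : Prop where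
  right : ∀ y : E, IsGen T (R y) (z • R y - y)
  left : ∀ x y : E, IsGen T x y → R (z • x - y) = x

/-- The spectrum of the generator of `T`. -/
def genSpectrum (T : ℝ → E →L[ℂ] E) : Set ℂ :=
  {z | ¬ ∃ R : E →L[ℂ] E, IsResolvent T z R}

/-- The spectral bound `s(A) = sup {Re z : z ∈ σ(A)}` of the generator `A` of `T`. -/
noncomputable def spectralBound (T : ℝ → E →L[ℂ] E) : EReal :=
  sSup ((fun z : ℂ => ((z.re : ℝ) : EReal)) '' genSpectrum T)

/-- The growth bound of `T` is `ω`: the quotients `ln ‖T t‖ / t` tend to `ω` as `t → ∞`. -/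
def HasGrowthBound (T : ℝ → E →L[ℂ] E) (ω : EReal) : Prop :=
  Tendsto (fun t : ℝ => ENNReal.log ‖T t‖ₑ / ((t : ℝ) : EReal)) atTop (𝓝 ω)

end Semigroup

end Run7.h205.OHS
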