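import Pool.Agent.Run7.h205.OHS.Planch

/-! Spectral bound and growth bound of positive semigroups on ordered Hilbert spaces. -/

open Filter Topology Set MeasureTheory
open scoped ENNReal

set_option linter.unusedSectionVars false
set_option linter.unusedVariables false

namespace Run7.h205.OHS

section Lower

variable {E : Type*} [NormedAddCommGroup E] [NormedSpace ℂ E] [CompleteSpace E]
variable {T : ℝ → E →L[ℂ] E}

lemma norm_le_iff_log {B : E →L[ℂ] E} {r : ℝ} :
    ENNReal.log ‖B‖ₑ ≤ ((r : ℝ) : EReal) ↔ ‖B‖ ≤ Real.exp r := by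
  have h1 : ((r : ℝ) : EReal) = ENNReal.log (ENNReal.ofReal (Real.exp r)) := by
    rw [ENNReal.log_ofReal_of_pos (Real.exp_pos r), Real.log_exp]
  rw [h1, ENNReal.log_le_log_iff, ← ofReal_norm, ENNReal.ofReal_le_ofReal_iff (Real.exp_pos r).le]

lemma lower (hT : IsC0Semigroup T) {t : ℝ} (ht : 0 < t) :
    spectralBound T ≤ ENNReal.log ‖T t‖ₑ / ((t : ℝ) : EReal) := by
  apply sSup_le
  rintro _ ⟨z, hz, rfl⟩
  simp only
  by_contra hcon
  rw [not_le] at hcon
  obtain ⟨r, hr1, hr2⟩ := EReal.lt_iff_exists_real_btwn.1 hcon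
  have ht' : (0 : EReal) < ((t : ℝ) : EReal) := by exact_mod_cast ht
  rw [EReal.div_lt_iff ht' (EReal.coe_ne_top t), ← EReal.coe_mul] at hr1
  have h1 : ‖T t‖ ≤ Real.exp (r * t) := norm_le_iff_log.1 hr1.le
  obtain ⟨K, hK0, hK⟩ := hT.exp_bound ht h1
  have h2 : r < z.re := by exact_mod_cast hr2
  exact hz (hT.exists_resolvent hK h2)

end Lower

section Main

variable {E : Type*} [NormedAddCommGroup E] [InnerProductSpace ℂ E] [CompleteSpace E]
variable {T : ℝ → E →L[ℂ] E}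

lemma upper (hT : IsC0Semigroup T) {Q : Set E} (hQ : IsCone Q) {c : ℝ} (hc : 0 ≤ c)
    (hN : NormalC Q c) (hG : GenC Q) (hpos : ∀ t, 0 ≤ t → ∀ x ∈ Q, T t x ∈ Q)
    {a : ℝ} (ha : spectralBound T < ((a : ℝ) : EReal)) :
    ∃ K : ℝ, 0 ≤ K ∧ ∀ t, 0 ≤ t → ‖T t‖ ≤ K * Real.exp (a * t) := by
  obtain ⟨s, hs1, hs2⟩ := EReal.lt_iff_exists_real_btwn.1 ha
  have hs : ∀ z ∈ genSpectrum T, z.re ≤ s := by
    intro z hz
    have h1 : ((z.re : ℝ) : EReal) ≤ spectralBound T := le_sSup ⟨z, hz, rfl⟩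
    exact_mod_cast (h1.trans hs1.le)
  obtain ⟨K, hK0, hK⟩ := unif_bound hT hQ hc hN hG hpos hs (by exact_mod_cast hs2 : s < a)
  obtain ⟨M, hM0, hM⟩ := bounded_of_unif (hT.resc (a : ℂ)) hK0 hK
  refine ⟨M, hM0, fun t ht => ?_⟩
  have h1 := hM t ht
  rw [norm_resc] at h1
  simp only [Complex.ofReal_re] at h1
  calc ‖T t‖ = Real.exp (a * t) * (Real.exp (-(a * t)) * ‖T t‖) := by
        rw [← mul_assoc, ← Real.exp_add, add_neg_cancel, Real.exp_zero, one_mul]
    _ ≤ Real.exp (a * t) * M := mul_le_mul_of_nonneg_left h1 (Real.exp_pos _).le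
    _ = _ := mul_comm _ _

/-- the theorem for cones in a complex Hilbert space -/
theorem growth (hT : IsC0Semigroup T) {Q : Set E} (hQ : IsCone Q) {c : ℝ} (hc : 0 ≤ c)
    (hN : NormalC Q c) (hG : GenC Q) (hpos : ∀ t, 0 ≤ t → ∀ x ∈ Q, T t x ∈ Q) :
    HasGrowthBound T (spectralBound T) := by
  unfold HasGrowthBound
  rw [tendsto_order]
  constructor
  · intro l hl
    filter_upwards [eventually_gt_atTop 0] with t ht
    exact hl.trans_le (lower hT ht)
  · intro u hu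
    obtain ⟨b, hb1, hb2⟩ := EReal.lt_iff_exists_real_btwn.1 hu
    obtain ⟨a, ha1, ha2⟩ := EReal.lt_iff_exists_real_btwn.1 hb1
    have hab : a < b := by exact_mod_cast ha2
    obtain ⟨K, hK0, hK⟩ := upper hT hQ hc hN hG hpos ha1
    filter_upwards [eventually_gt_atTop 0, eventually_ge_atTop (K / (b - a))] with t ht htK
    have h1 : K ≤ Real.exp ((b - a) * t) := by
      have : K ≤ t * (b - a) := by rwa [div_le_iff₀ (by linarith)] at htK
      linarith [Real.add_one_le_exp ((b - a) * t)]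
    have h2 : ‖T t‖ ≤ Real.exp (b * t) := by
      refine (hK t ht.le).trans ?_
      calc K * Real.exp (a * t) ≤ Real.exp ((b - a) * t) * Real.exp (a * t) :=
            mul_le_mul_of_nonneg_right h1 (Real.exp_pos _).le
        _ = Real.exp (b * t) := by rw [← Real.exp_add]; congr 1; ring
    have ht' : (0 : EReal) < ((t : ℝ) : EReal) := by exact_mod_cast ht
    have h3 : ENNReal.log ‖T t‖ₑ / ((t : ℝ) : EReal) ≤ ((b : ℝ) : EReal) := by
      rw [EReal.div_le_iff_le_mul ht' (EReal.coe_ne_top t), ← EReal.coe_mul, mul_comm]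
      exact norm_le_iff_log.2 h2
    exact h3.trans_lt hb2

end Main

section Complexification

variable {H E : Type*} [NormedAddCommGroup H] [InnerProductSpace ℝ H] [CompleteSpace H]
  [NormedAddCommGroup E] [InnerProductSpace ℂ E] [CompleteSpace E]

lemma IsComplexification.norm_map {ι : H → E} (h : IsComplexification ι) (x : H) :
    ‖ι x‖ = ‖x‖ := by
  have h1 := h.inner_map x x
  rw [inner_self_eq_norm_sq_to_K] at h1
  have h2 : ((‖ι x‖ ^ 2 : ℝ) : ℂ) = ((inner ℝ x x : ℝ) : ℂ) := by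
    rw [← h1]; simp
  have h3 : ‖ι x‖ ^ 2 = ‖x‖ ^ 2 := by
    have := Complex.ofReal_injective h2
    rw [this, real_inner_self_eq_norm_sq]
  exact (sq_eq_sq₀ (norm_nonneg _) (norm_nonneg _)).1 h3

lemma IsComplexification.map_neg {ι : H → E} (h : IsComplexification ι) (x : H) :
    ι (-x) = - ι x := by
  have := h.map_smul (-1) x
  simpa using this

lemma IsComplexification.map_sub {ι : H → E} (h : IsComplexification ι) (x y : H) :
    ι (x - y) = ι x - ι y := by
  rw [sub_eq_add_neg, h.map_add, h.map_neg, sub_eq_add_neg]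

lemma IsComplexification.isometry {ι : H → E} (h : IsComplexification ι) : Isometry ι := by
  apply Isometry.of_dist_eq
  intro x y
  rw [dist_eq_norm, dist_eq_norm, ← h.map_sub, h.norm_map]

/-- **Theorem.** -/
theorem main {ι : H → E} (hι : IsComplexification ι) {C : ProperCone ℝ H} (hn : IsNormalCone C)
    (hg : IsGeneratingCone C) {T : ℝ → E →L[ℂ] E} (hT : IsC0Semigroup T)
    (hpos : ∀ t, 0 ≤ t → ∀ x ∈ C, ∃ y ∈ C, T t (ι x) = ι y) :
    HasGrowthBound T (spectralBound T) := by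
  obtain ⟨c, hc, hN⟩ := hn
  have hQ : IsCone (ι '' (C : Set H)) := by
    refine ⟨?_, ?_, ?_, ?_⟩
    · exact hι.isometry.isClosedEmbedding.isClosedMap _ C.isClosed
    · refine ⟨0, C.zero_mem, ?_⟩
      have := hι.norm_map 0
      rwa [norm_zero, norm_eq_zero] at this
    · rintro _ ⟨x, hx, rfl⟩ _ ⟨y, hy, rfl⟩
      exact ⟨x + y, C.add_mem hx hy, hι.map_add x y⟩
    · rintro r hr _ ⟨x, hx, rfl⟩
      exact ⟨r • x, C.smul_mem hx hr, hι.map_smul r x⟩
  apply growth hT hQ hc.le (c := c)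
  · rintro _ ⟨x, hx, rfl⟩ y hy
    obtain ⟨w, hw, hwe⟩ := hy
    have e : y = ι (w + x) := by rw [hι.map_add, hwe]; abel
    rw [e, hι.norm_map, hι.norm_map]
    apply hN x (w + x) hx
    rwa [add_sub_cancel_right]
  · intro z
    obtain ⟨x, y, rfl⟩ := hι.exists_decomp z
    obtain ⟨a, ha, b, hb, rfl⟩ := hg x
    obtain ⟨a', ha', b', hb', rfl⟩ := hg y
    exact ⟨ι a, ⟨a, ha, rfl⟩, ι b, ⟨b, hb, rfl⟩, ι a', ⟨a', ha', rfl⟩, ι b', ⟨b', hb', rfl⟩, by
      rw [hι.map_sub, hι.map_sub]⟩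
  · rintro t ht _ ⟨x, hx, rfl⟩
    obtain ⟨y, hy, e⟩ := hpos t ht x hx
    exact ⟨y, hy, e.symm⟩

end Complexification

end Run7.h205.OHS
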