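import Pool.Agent.Run7.h205.OHS.Unif
import Pool.Agent.TH277.HT.Pl

/-! From uniform bounds of truncated Laplace transforms to boundedness, on Hilbert spaces. -/

open Filter Topology Set MeasureTheory FourierTransform
open scoped ENNReal

set_option linter.unusedSectionVars false
set_option linter.unusedVariables false

namespace Run7.h205.OHS

lemma double_int {F : Type*} [NormedAddCommGroup F] [NormedSpace ℝ F] [CompleteSpace F]
    (f : ℝ → F) (hf : Continuous f) {τ : ℝ} (hτ : 0 ≤ τ) :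
    ∫ u in (0:ℝ)..τ, ∫ r in (0:ℝ)..τ, f (u + r) =
      ∫ t in (0:ℝ)..(2 * τ), (min t (2 * τ - t)) • f t := by
  set A : ℝ → F := fun t => ∫ r in (0:ℝ)..t, f r with hA
  have dA : ∀ t, HasDerivAt A (f t) t := fun t =>
    intervalIntegral.integral_hasDerivAt_right (hf.intervalIntegrable _ _)
      (hf.stronglyMeasurableAtFilter _ _) hf.continuousAt
  have cA : Continuous A := continuous_iff_continuousAt.2 fun t => (dA t).continuousAt
  set G : ℝ → F := fun t => ∫ r in (0:ℝ)..t, A r with hG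
  have dG : ∀ t, HasDerivAt G (A t) t := fun t =>
    intervalIntegral.integral_hasDerivAt_right (cA.intervalIntegrable _ _)
      (cA.stronglyMeasurableAtFilter _ _) cA.continuousAt
  have A0 : A 0 = 0 := by simp [hA]
  have G0 : G 0 = 0 := by simp [hG]
  have L : ∫ u in (0:ℝ)..τ, ∫ r in (0:ℝ)..τ, f (u + r) = (G (2 * τ) - G τ) - G τ := by
    have e1 : ∀ u, ∫ r in (0:ℝ)..τ, f (u + r) = A (u + τ) - A u := by
      intro u
      rw [intervalIntegral.integral_comp_add_left f u, add_zero]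
      rw [hA]
      simp only
      rw [intervalIntegral.integral_interval_sub_left (hf.intervalIntegrable _ _)
        (hf.intervalIntegrable _ _)]
    simp only [e1]
    have iA : IntervalIntegrable (fun u => A (u + τ)) volume 0 τ :=
      (cA.comp (continuous_id.add continuous_const)).intervalIntegrable _ _
    rw [intervalIntegral.integral_sub iA
      (cA.intervalIntegrable _ _), intervalIntegral.integral_comp_add_right A τ]
    rw [zero_add, ← two_mul]
    congr 1
    rw [hG]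
    simp only
    rw [intervalIntegral.integral_interval_sub_left (cA.intervalIntegrable _ _)
        (cA.intervalIntegrable _ _)]
  rw [L]
  have s1 : ∫ t in (0:ℝ)..τ, (min t (2 * τ - t)) • f t = τ • A τ - G τ := by
    have e1 : ∫ t in (0:ℝ)..τ, (min t (2 * τ - t)) • f t = ∫ t in (0:ℝ)..τ, t • f t := by
      apply intervalIntegral.integral_congr
      intro t ht
      rw [uIcc_of_le hτ] at ht
      simp only
      rw [min_eq_left (by linarith [ht.2])]
    rw [e1, intervalIntegral.integral_eq_sub_of_hasDerivAt (f := fun t => t • A t - G t)]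
    · simp [A0, G0]
    · intro t _
      have h5 : HasDerivAt (fun t : ℝ => t • A t - G t) (t • f t + (1:ℝ) • A t - A t) t :=
        ((hasDerivAt_id t).smul (dA t)).sub (dG t)
      exact h5.congr_deriv (by rw [one_smul]; abel)
    · exact (continuous_id.smul hf).intervalIntegrable _ _
  have s2 : ∫ t in τ..(2 * τ), (min t (2 * τ - t)) • f t = - (τ • A τ) + (G (2 * τ) - G τ) := by
    have e1 : ∫ t in τ..(2 * τ), (min t (2 * τ - t)) • f t =
        ∫ t in τ..(2 * τ), (2 * τ - t) • f t := by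
      apply intervalIntegral.integral_congr
      intro t ht
      rw [uIcc_of_le (by linarith)] at ht
      simp only
      rw [min_eq_right (by linarith [ht.1])]
    rw [e1, intervalIntegral.integral_eq_sub_of_hasDerivAt (f := fun t => (2 * τ - t) • A t + G t)]
    · simp only [sub_self, zero_smul, zero_add]
      have : 2 * τ - τ = τ := by ring
      rw [this]
      abel
    · intro t _
      have h0 : HasDerivAt (fun t : ℝ => 2 * τ - t) (-1) t := by
        simpa using (hasDerivAt_id t).const_sub (2 * τ)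
      have h5 : HasDerivAt (fun t : ℝ => (2 * τ - t) • A t + G t)
          ((2 * τ - t) • f t + (-1:ℝ) • A t + A t) t := (h0.smul (dA t)).add (dG t)
      exact h5.congr_deriv (by rw [neg_one_smul]; abel)
    · exact ((continuous_const.sub continuous_id).smul hf).intervalIntegrable _ _
  have hc : Continuous fun t : ℝ => (min t (2 * τ - t)) • f t := by fun_prop
  rw [← intervalIntegral.integral_add_adjacent_intervals (hc.intervalIntegrable 0 τ)
    (hc.intervalIntegrable τ (2 * τ)), s1, s2]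
  abel

variable {E : Type*} [NormedAddCommGroup E] [InnerProductSpace ℂ E] [CompleteSpace E]
variable {S : ℝ → E →L[ℂ] E}

/-- the double integral of a semigroup -/
lemma double_sg (hS : IsC0Semigroup S) (x : E) {τ : ℝ} (hτ : 0 ≤ τ) :
    ∫ u in (0:ℝ)..τ, S u (∫ r in (0:ℝ)..τ, S r x) =
      ∫ t in (0:ℝ)..(2 * τ), (min t (2 * τ - t)) • S t x := by
  have hc : Continuous (fun t : ℝ => S |t| x) :=
    (hS.cont x).comp_continuous continuous_abs (fun t => abs_nonneg t)
  have h := double_int (fun t : ℝ => S |t| x) hc hτ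
  have e1 : ∫ u in (0:ℝ)..τ, S u (∫ r in (0:ℝ)..τ, S r x) =
      ∫ u in (0:ℝ)..τ, ∫ r in (0:ℝ)..τ, S |u + r| x := by
    apply intervalIntegral.integral_congr
    intro u hu
    rw [uIcc_of_le hτ] at hu
    simp only
    rw [← (S u).intervalIntegral_comp_comm (hS.ii x le_rfl hτ)]
    apply intervalIntegral.integral_congr
    intro r hr
    rw [uIcc_of_le hτ] at hr
    simp only
    rw [abs_of_nonneg (by linarith [hu.1, hr.1]), hS.map_add u r hu.1 hr.1]
    rfl
  rw [e1, h]
  apply intervalIntegral.integral_congr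
  intro t ht
  rw [uIcc_of_le (by linarith)] at ht
  simp only
  rw [abs_of_nonneg ht.1]

/-- the estimate from Plancherel's theorem -/
lemma planch_bound (hS : IsC0Semigroup S) {K : ℝ} (hK0 : 0 ≤ K)
    (hK : ∀ τ, 0 ≤ τ → ∀ (θ : ℝ) (x : E),
      ‖∫ t in (0:ℝ)..τ, resc S (((θ : ℝ) : ℂ) * Complex.I) t x‖ ≤ K * ‖x‖)
    {τ : ℝ} (hτ : 0 ≤ τ) (x : E) :
    ∫ t in (0:ℝ)..τ, t ^ 2 * ‖S t x‖ ^ 2 ≤ K ^ 2 * ∫ t in (0:ℝ)..τ, ‖S t x‖ ^ 2 := by
  have h2τ : (0:ℝ) ≤ 2 * τ := by linarith
  set g : ℝ → E := (Ioc 0 τ).indicator (fun t => S t x) with hg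
  set h : ℝ → E := (Ioc 0 (2 * τ)).indicator (fun t => (min t (2 * τ - t)) • S t x) with hh
  have cS : ∀ a, ContinuousOn (fun t => S t x) (Icc 0 a) := fun a =>
    (hS.cont x).mono Icc_subset_Ici_self
  have ch : ContinuousOn (fun t => (min t (2 * τ - t)) • S t x) (Icc 0 (2 * τ)) := by
    have hmin : ContinuousOn (fun t : ℝ => min t (2 * τ - t)) (Icc 0 (2 * τ)) := by fun_prop
    exact hmin.smul (cS _)
  have gen1 : ∀ (f : ℝ → E) (a : ℝ), ContinuousOn f (Icc 0 a) →
      Integrable ((Ioc 0 a).indicator f) ∧ MemLp ((Ioc 0 a).indicator f) 2 := by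
    intro f a hf
    obtain ⟨C, hC⟩ := isCompact_Icc.exists_bound_of_continuousOn hf
    have hm : AEStronglyMeasurable f (volume.restrict (Ioc 0 a)) :=
      (hf.mono Ioc_subset_Icc_self).aestronglyMeasurable measurableSet_Ioc
    have : IsFiniteMeasure (volume.restrict (Ioc (0:ℝ) a)) := ⟨by
      rw [Measure.restrict_apply_univ, Real.volume_Ioc]
      exact ENNReal.ofReal_lt_top⟩
    have hb : ∀ᵐ t ∂(volume.restrict (Ioc 0 a)), ‖f t‖ ≤ C :=
      (ae_restrict_iff' measurableSet_Ioc).2 (ae_of_all _ fun t ht => hC t (Ioc_subset_Icc_self ht))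
    constructor
    · rw [integrable_indicator_iff measurableSet_Ioc]
      exact Integrable.of_bound hm C hb
    · rw [memLp_indicator_iff_restrict measurableSet_Ioc]
      exact MemLp.of_bound hm C hb
  obtain ⟨g1, g2⟩ := gen1 _ τ (cS τ)
  obtain ⟨h1, h2⟩ := gen1 _ (2 * τ) ch
  rw [← hg] at g1 g2
  rw [← hh] at h1 h2
  have four : ∀ (f : ℝ → E) (a : ℝ), 0 ≤ a → ∀ ξ : ℝ, 𝓕 ((Ioc 0 a).indicator f) ξ =
      ∫ t in (0:ℝ)..a, Complex.exp (-(((2 * Real.pi * ξ : ℝ) : ℂ) * Complex.I * t)) • f t := by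
    intro f a ha ξ
    rw [Real.fourier_eq, intervalIntegral.integral_of_le ha, ← integral_indicator measurableSet_Ioc]
    apply integral_congr_ae
    refine ae_of_all _ fun t => ?_
    simp only
    by_cases ht : t ∈ Ioc 0 a
    · rw [indicator_of_mem ht, indicator_of_mem ht, Circle.smul_def, Real.fourierChar_apply]
      congr 2
      simp only [RCLike.inner_apply, conj_trivial]
      push_cast
      ring
    · rw [indicator_of_notMem ht, indicator_of_notMem ht, smul_zero]
  have fg : ∀ ξ : ℝ, 𝓕 g ξ = ∫ t in (0:ℝ)..τ, resc S (((2 * Real.pi * ξ : ℝ) : ℂ) * Complex.I) t x := by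
    intro ξ
    rw [hg, four _ τ hτ]
    rfl
  have fh : ∀ ξ : ℝ, 𝓕 h ξ = ∫ u in (0:ℝ)..τ, resc S (((2 * Real.pi * ξ : ℝ) : ℂ) * Complex.I) u
      (𝓕 g ξ) := by
    intro ξ
    rw [fg, double_sg (hS.resc _) x hτ, hh, four _ (2 * τ) h2τ]
    apply intervalIntegral.integral_congr
    intro t _
    simp only
    rw [resc_apply, smul_comm]
  have hle : ∀ ξ, ‖𝓕 h ξ‖ₑ ^ 2 ≤ ENNReal.ofReal (K ^ 2) * ‖𝓕 g ξ‖ₑ ^ 2 := by
    intro ξ
    have a1 : ‖𝓕 h ξ‖ ≤ K * ‖𝓕 g ξ‖ := by
      rw [fh]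
      exact hK τ hτ _ _
    rw [← ofReal_norm, ← ofReal_norm, ← ENNReal.ofReal_pow (norm_nonneg _),
      ← ENNReal.ofReal_pow (norm_nonneg _), ← ENNReal.ofReal_mul (by positivity)]
    apply ENNReal.ofReal_le_ofReal
    rw [← mul_pow]
    exact pow_le_pow_left₀ (norm_nonneg _) a1 2
  have P : ∫⁻ t, ‖h t‖ₑ ^ 2 ≤ ENNReal.ofReal (K ^ 2) * ∫⁻ t, ‖g t‖ₑ ^ 2 := by
    rw [← Pool.Agent.TH277.HT.plancherel h h1 h2, ← Pool.Agent.TH277.HT.plancherel g g1 g2,
      ← lintegral_const_mul' _ _ ENNReal.ofReal_ne_top]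
    exact lintegral_mono hle
  -- back to real integrals
  have Q1 : ∫⁻ t, ‖g t‖ₑ ^ 2 = ENNReal.ofReal (∫ t in (0:ℝ)..τ, ‖S t x‖ ^ 2) := by
    rw [intervalIntegral.integral_of_le hτ, ofReal_integral_eq_lintegral_ofReal]
    · rw [← lintegral_indicator measurableSet_Ioc]
      apply lintegral_congr
      intro t
      by_cases ht : t ∈ Ioc 0 τ
      · rw [hg, indicator_of_mem ht, indicator_of_mem ht, ENNReal.ofReal_pow (norm_nonneg _),
          ofReal_norm]
      · rw [hg, indicator_of_notMem ht, indicator_of_notMem ht]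
        simp
    · have : ContinuousOn (fun t => ‖S t x‖ ^ 2) (Icc 0 τ) := ((cS τ).norm).pow 2
      exact (this.integrableOn_Icc).mono_set Ioc_subset_Icc_self
    · exact ae_of_all _ fun t => by positivity
  have Q2 : ENNReal.ofReal (∫ t in (0:ℝ)..τ, t ^ 2 * ‖S t x‖ ^ 2) ≤ ∫⁻ t, ‖h t‖ₑ ^ 2 := by
    rw [intervalIntegral.integral_of_le hτ, ofReal_integral_eq_lintegral_ofReal]
    · rw [← lintegral_indicator measurableSet_Ioc]
      apply lintegral_mono
      intro t
      simp only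
      by_cases ht : t ∈ Ioc 0 τ
      · have ht2 : t ∈ Ioc 0 (2 * τ) := ⟨ht.1, by linarith [ht.2]⟩
        rw [hh, indicator_of_mem ht, indicator_of_mem ht2, min_eq_left (by linarith [ht.2]),
          ← ofReal_norm, norm_smul, Real.norm_eq_abs, abs_of_nonneg ht.1.le,
          ← ENNReal.ofReal_pow (by positivity [ht.1]), mul_pow]
      · rw [indicator_of_notMem ht]
        exact zero_le
    · have : ContinuousOn (fun t => t ^ 2 * ‖S t x‖ ^ 2) (Icc 0 τ) :=
        (continuousOn_id.pow 2).mul (((cS τ).norm).pow 2)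
      exact (this.integrableOn_Icc).mono_set Ioc_subset_Icc_self
    · exact ae_of_all _ fun t => by positivity
  have hJ : 0 ≤ ∫ t in (0:ℝ)..τ, ‖S t x‖ ^ 2 :=
    intervalIntegral.integral_nonneg hτ fun t _ => by positivity
  have := (Q2.trans P)
  rw [Q1, ← ENNReal.ofReal_mul (by positivity),
    ENNReal.ofReal_le_ofReal_iff (by positivity)] at this
  exact this

/-- uniform boundedness -/
lemma bounded_of_unif (hS : IsC0Semigroup S) {K : ℝ} (hK0 : 0 ≤ K)
    (hK : ∀ τ, 0 ≤ τ → ∀ (θ : ℝ) (x : E),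
      ‖∫ t in (0:ℝ)..τ, resc S (((θ : ℝ) : ℂ) * Complex.I) t x‖ ≤ K * ‖x‖) :
    ∃ M : ℝ, 0 ≤ M ∧ ∀ t, 0 ≤ t → ‖S t‖ ≤ M := by
  set a : ℝ := 2 * K + 1 with ha
  have ha0 : 0 < a := by linarith
  obtain ⟨Ma, hMa0, hMa⟩ := hS.loc_bdd a
  obtain ⟨M1, hM10, hM1⟩ := hS.loc_bdd 1
  have cS : ∀ x b, ContinuousOn (fun t => S t x) (Icc 0 b) := fun x b =>
    (hS.cont x).mono Icc_subset_Ici_self
  have iS : ∀ x (b c : ℝ), 0 ≤ b → 0 ≤ c →
      IntervalIntegrable (fun t => ‖S t x‖ ^ 2) volume b c := by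
    intro x b c hb hc
    apply ContinuousOn.intervalIntegrable
    apply (((hS.cont x).norm).pow 2).mono
    intro t ht
    rw [mem_Ici]
    rcases le_total b c with h | h
    · rw [uIcc_of_le h] at ht; exact hb.trans ht.1
    · rw [uIcc_of_ge h] at ht; exact hc.trans ht.1
  have iS2 : ∀ x (b c : ℝ), 0 ≤ b → 0 ≤ c →
      IntervalIntegrable (fun t => t ^ 2 * ‖S t x‖ ^ 2) volume b c := by
    intro x b c hb hc
    apply ContinuousOn.intervalIntegrable
    apply ((continuousOn_id.pow 2).mul (((hS.cont x).norm).pow 2)).mono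
    intro t ht
    rw [mem_Ici]
    rcases le_total b c with h | h
    · rw [uIcc_of_le h] at ht; exact hb.trans ht.1
    · rw [uIcc_of_ge h] at ht; exact hc.trans ht.1
  -- square integrability
  have hJ : ∀ x : E, ∀ τ, a ≤ τ → ∫ t in (0:ℝ)..τ, ‖S t x‖ ^ 2 ≤ 4 / 3 * (a * (Ma * ‖x‖) ^ 2) := by
    intro x τ hτ
    have hτ0 : 0 ≤ τ := ha0.le.trans hτ
    have p := planch_bound hS hK0 hK hτ0 x
    have e1 := intervalIntegral.integral_add_adjacent_intervals (iS x 0 a le_rfl ha0.le)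
      (iS x a τ ha0.le hτ0)
    have e2 := intervalIntegral.integral_add_adjacent_intervals (iS2 x 0 a le_rfl ha0.le)
      (iS2 x a τ ha0.le hτ0)
    have q1 : a ^ 2 * ∫ t in a..τ, ‖S t x‖ ^ 2 ≤ ∫ t in a..τ, t ^ 2 * ‖S t x‖ ^ 2 := by
      rw [← intervalIntegral.integral_const_mul]
      apply intervalIntegral.integral_mono_on hτ ((iS x a τ ha0.le hτ0).const_mul _)
        (iS2 x a τ ha0.le hτ0)
      intro t ht
      apply mul_le_mul_of_nonneg_right _ (by positivity)
      exact pow_le_pow_left₀ ha0.le ht.1 2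
    have q2 : 0 ≤ ∫ t in (0:ℝ)..a, t ^ 2 * ‖S t x‖ ^ 2 :=
      intervalIntegral.integral_nonneg ha0.le fun t _ => by positivity
    have q3 : ∫ t in (0:ℝ)..a, ‖S t x‖ ^ 2 ≤ a * (Ma * ‖x‖) ^ 2 := by
      have : ∫ t in (0:ℝ)..a, ‖S t x‖ ^ 2 ≤ ∫ t in (0:ℝ)..a, (Ma * ‖x‖) ^ 2 := by
        apply intervalIntegral.integral_mono_on ha0.le (iS x 0 a le_rfl ha0.le)
          intervalIntegrable_const
        intro t ht
        apply pow_le_pow_left₀ (norm_nonneg _)
        exact ((S t).le_opNorm x).trans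
          (mul_le_mul_of_nonneg_right (hMa t ht.1 ht.2) (norm_nonneg _))
      rw [intervalIntegral.integral_const, sub_zero, smul_eq_mul] at this
      exact this
    have q4 : 0 ≤ ∫ t in a..τ, ‖S t x‖ ^ 2 :=
      intervalIntegral.integral_nonneg hτ fun t _ => by positivity
    set J0 := ∫ t in (0:ℝ)..a, ‖S t x‖ ^ 2
    set J1 := ∫ t in a..τ, ‖S t x‖ ^ 2
    have q5 : 0 ≤ J0 := intervalIntegral.integral_nonneg ha0.le fun t _ => by positivity
    rw [← e1] at p
    rw [← e2] at p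
    have q6 : a ^ 2 * J1 ≤ K ^ 2 * (J0 + J1) := by linarith
    have q7 : K ^ 2 ≤ a ^ 2 / 4 := by rw [ha]; nlinarith
    have q8 : a ^ 2 * J1 ≤ a ^ 2 / 4 * (J0 + J1) :=
      q6.trans (mul_le_mul_of_nonneg_right q7 (by linarith))
    have q9 : 0 < a ^ 2 := by positivity
    have q10 : J1 ≤ (J0 + J1) / 4 := by
      have : a ^ 2 * J1 ≤ a ^ 2 * ((J0 + J1) / 4) := by linarith
      exact le_of_mul_le_mul_left this q9
    rw [← e1]
    linarith
  set C : ℝ := M1 * Real.sqrt (4 / 3 * a * Ma ^ 2) with hC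
  refine ⟨max C Ma, le_max_of_le_right hMa0, fun t ht => ?_⟩
  rcases le_or_gt t a with hta | hta
  · exact (hMa t ht hta).trans (le_max_right _ _)
  refine le_trans ?_ (le_max_left _ _)
  apply ContinuousLinearMap.opNorm_le_bound _ (by positivity)
  intro x
  have ht1 : 1 ≤ t := by linarith
  have hb : ‖S t x‖ ^ 2 ≤ ∫ r in (t-1)..t, M1 ^ 2 * ‖S r x‖ ^ 2 := by
    have : ∫ r in (t-1)..t, ‖S t x‖ ^ 2 ≤ ∫ r in (t-1)..t, M1 ^ 2 * ‖S r x‖ ^ 2 := by
      apply intervalIntegral.integral_mono_on (by linarith) intervalIntegrable_const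
        ((iS x _ _ (by linarith) ht).const_mul _)
      intro r hr
      rw [← mul_pow]
      apply pow_le_pow_left₀ (norm_nonneg _)
      have e : t = (t - r) + r := by ring
      have e2 : S t x = S (t - r) (S r x) := by
        conv_lhs => rw [e, hS.map_add (t - r) r (by linarith [hr.2]) (by linarith [hr.1])]
        rfl
      rw [e2]
      exact ((S (t - r)).le_opNorm _).trans (mul_le_mul_of_nonneg_right
        (hM1 _ (by linarith [hr.2]) (by linarith [hr.1])) (norm_nonneg _))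
    rw [intervalIntegral.integral_const] at this
    have e3 : (t - (t - 1)) • ‖S t x‖ ^ 2 = ‖S t x‖ ^ 2 := by
      rw [smul_eq_mul]; ring
    rwa [e3] at this
  rw [intervalIntegral.integral_const_mul] at hb
  have hb2 : ∫ r in (t-1)..t, ‖S r x‖ ^ 2 ≤ ∫ r in (0:ℝ)..t, ‖S r x‖ ^ 2 := by
    have e1 := intervalIntegral.integral_add_adjacent_intervals
      (iS x 0 (t-1) le_rfl (by linarith)) (iS x (t-1) t (by linarith) ht)
    have : 0 ≤ ∫ r in (0:ℝ)..(t-1), ‖S r x‖ ^ 2 :=
      intervalIntegral.integral_nonneg (by linarith) fun t _ => by positivity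
    linarith
  have hb3 := hJ x t hta.le
  have hb4 : ‖S t x‖ ^ 2 ≤ (C * ‖x‖) ^ 2 := by
    calc ‖S t x‖ ^ 2 ≤ M1 ^ 2 * (4 / 3 * (a * (Ma * ‖x‖) ^ 2)) :=
          hb.trans (mul_le_mul_of_nonneg_left (hb2.trans hb3) (by positivity))
      _ = (C * ‖x‖) ^ 2 := by
          rw [mul_pow C, hC, mul_pow M1, Real.sq_sqrt (by positivity)]
          ring
  exact le_of_sq_le_sq hb4 (by positivity)

end Run7.h205.OHS
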