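import Pool.Agent.Run7.h205.OHS.Basic

/-! Laplace transform of semigroups of negative type; positivity. -/

open Filter Topology Set MeasureTheory

set_option linter.unusedSectionVars false

namespace Run7.h205.OHS

variable {E : Type*} [NormedAddCommGroup E] [NormedSpace ℂ E] [CompleteSpace E]
variable {T : ℝ → E →L[ℂ] E}

/-- closed convex cones -/
structure IsCone (Q : Set E) : Prop where
  closed : IsClosed Q
  zero : (0 : E) ∈ Q
  add : ∀ x ∈ Q, ∀ y ∈ Q, x + y ∈ Q
  smul : ∀ r : ℝ, 0 ≤ r → ∀ x ∈ Q, ((r : ℝ) : ℂ) • x ∈ Q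

lemma IsCone.convex {Q : Set E} (hQ : IsCone Q) : Convex ℝ Q := by
  intro x hx y hy a b ha hb _
  have h1 := hQ.smul a ha x hx
  have h2 := hQ.smul b hb y hy
  rw [Complex.coe_smul] at h1 h2
  exact hQ.add _ h1 _ h2

/-- integrals of functions with values in a closed cone -/
lemma IsCone.integral_mem {Q : Set E} (hQ : IsCone Q) {f : ℝ → E} {a b : ℝ} (hab : a ≤ b)
    (hf : IntervalIntegrable f volume a b) (h : ∀ t ∈ Ioc a b, f t ∈ Q) :
    ∫ t in a..b, f t ∈ Q := by
  rcases hab.eq_or_lt with rfl | hlt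
  · simpa using hQ.zero
  rw [intervalIntegral.integral_of_le hab]
  have h1 : (⨍ t in Ioc a b, f t) ∈ Q := by
    apply hQ.convex.set_average_mem hQ.closed
    · simp [hlt]
    · simp
    · exact (ae_restrict_iff' measurableSet_Ioc).2 (ae_of_all _ h)
    · exact (intervalIntegrable_iff_integrableOn_Ioc_of_le hab).1 hf
  rw [setAverage_eq] at h1
  have h2 := hQ.smul (b - a) (by linarith) _ h1
  have h3 : volume.real (Ioc a b) = b - a := by
    simp [Measure.real, hlt.le]
  rw [h3, Complex.coe_smul, smul_smul, mul_inv_cancel₀ (by linarith), one_smul] at h2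
  exact h2

namespace IsC0Semigroup

lemma exists_Vop (hT : IsC0Semigroup T) {τ : ℝ} (hτ : 0 ≤ τ) :
    ∃ V : E →L[ℂ] E, ∀ x, V x = ∫ t in (0:ℝ)..τ, T t x := by
  obtain ⟨M, hM0, hM⟩ := hT.loc_bdd τ
  refine ⟨LinearMap.mkContinuous
    { toFun := fun x => ∫ t in (0:ℝ)..τ, T t x
      map_add' := ?_
      map_smul' := ?_ } (M * τ) ?_, fun x => rfl⟩
  · intro x y
    simp only [_root_.map_add]
    exact intervalIntegral.integral_add (hT.ii x le_rfl hτ) (hT.ii y le_rfl hτ)
  · intro c x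
    simp only [map_smul, RingHom.id_apply]
    exact intervalIntegral.integral_smul c _
  · intro x
    have h1 : ‖∫ t in (0:ℝ)..τ, T t x‖ ≤ (M * ‖x‖) * |τ - 0| := by
      apply intervalIntegral.norm_integral_le_of_norm_le_const
      intro t ht
      rw [uIoc_of_le hτ] at ht
      exact ((T t).le_opNorm x).trans
        (mul_le_mul_of_nonneg_right (hM t ht.1.le ht.2) (norm_nonneg _))
    rw [sub_zero, abs_of_nonneg hτ] at h1
    calc _ ≤ (M * ‖x‖) * τ := h1
      _ = M * τ * ‖x‖ := by ring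

lemma shift_key (hT : IsC0Semigroup T) (x : E) {τ : ℝ} (hτ : 0 ≤ τ) {h : ℝ} (hh : 0 < h) :
    T h (∫ t in (0:ℝ)..τ, T t x) - (∫ t in (0:ℝ)..τ, T t x) =
      (∫ t in τ..(τ + h), T t x) - ∫ t in (0:ℝ)..h, T t x := by
  have e1 : T h (∫ t in (0:ℝ)..τ, T t x) = ∫ t in (0:ℝ)..τ, T h (T t x) :=
    ((T h).intervalIntegral_comp_comm (hT.ii x le_rfl hτ)).symm
  have e2 : ∫ t in (0:ℝ)..τ, T h (T t x) = ∫ t in (0:ℝ)..τ, T (t + h) x := by
    apply intervalIntegral.integral_congr
    intro t ht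
    rw [uIcc_of_le hτ] at ht
    simp only
    rw [add_comm t h, hT.map_add h t hh.le ht.1]
    rfl
  rw [e1, e2, intervalIntegral.integral_comp_add_right (fun t => T t x) h]
  simp only [zero_add]
  have e3 := intervalIntegral.integral_add_adjacent_intervals
    (hT.ii x le_rfl hh.le) (hT.ii x hh.le (by linarith : (0:ℝ) ≤ τ + h))
  have e4 := intervalIntegral.integral_add_adjacent_intervals
    (hT.ii x le_rfl hτ) (hT.ii x hτ (by linarith : (0:ℝ) ≤ τ + h))
  rw [← e4] at e3
  have e5 : ∫ t in h..(τ + h), T t x = (∫ t in (0:ℝ)..τ, T t x) + (∫ t in τ..(τ + h), T t x)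
      - ∫ t in (0:ℝ)..h, T t x := by
    rw [← e3]; abel
  rw [e5]; abel

lemma tendsto_avg (hT : IsC0Semigroup T) (x : E) {σ : ℝ} (hσ : 0 ≤ σ) :
    Tendsto (fun h : ℝ => ((h⁻¹ : ℝ) : ℂ) • ∫ t in σ..(σ + h), T t x)
      (𝓝[>] 0) (𝓝 (T σ x)) := by
  have hcont : Continuous (fun t : ℝ => T |t| x) :=
    (hT.cont x).comp_continuous continuous_abs (fun t => abs_nonneg t)
  have hd : HasDerivAt (fun u => ∫ t in σ..u, T |t| x) (T |σ| x) σ :=
    intervalIntegral.integral_hasDerivAt_right (hcont.intervalIntegrable _ _)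
      (hcont.stronglyMeasurableAtFilter _ _) hcont.continuousAt
  have h1 := hd.tendsto_slope_zero_right
  rw [abs_of_nonneg hσ] at h1
  refine h1.congr' ?_
  filter_upwards [self_mem_nhdsWithin] with h hh
  have hh' : 0 < h := hh
  simp only [intervalIntegral.integral_same, sub_zero]
  rw [← Complex.coe_smul]
  congr 1
  apply intervalIntegral.integral_congr
  intro t ht
  rw [uIcc_of_le (by linarith)] at ht
  simp only
  rw [abs_of_nonneg (hσ.trans ht.1)]

/-- the resolvent of a semigroup of negative type -/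
lemma exists_resolvent_zero (hT : IsC0Semigroup T) {K δ : ℝ} (hδ : 0 < δ)
    (hb : ∀ t, 0 ≤ t → ‖T t‖ ≤ K * Real.exp (-δ * t)) :
    ∃ R : E →L[ℂ] E, IsResolvent T 0 R ∧
      ∀ Q : Set E, IsCone Q → (∀ t, 0 ≤ t → ∀ x ∈ Q, T t x ∈ Q) → ∀ x ∈ Q, R x ∈ Q := by
  have hint : ∀ x, IntegrableOn (fun t => T t x) (Ioi 0) := by
    intro x
    have h1 : IntegrableOn (fun t => K * Real.exp (-δ * t) * ‖x‖) (Ioi 0) :=
      ((integrableOn_exp_mul_Ioi (by linarith : -δ < 0) 0).const_mul K).mul_const _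
    refine Integrable.mono' h1 ?_ ?_
    · exact ((hT.cont x).mono Ioi_subset_Ici_self).aestronglyMeasurable measurableSet_Ioi
    · refine (ae_restrict_iff' measurableSet_Ioi).2 (ae_of_all _ fun t ht => ?_)
      exact ((T t).le_opNorm x).trans
        (mul_le_mul_of_nonneg_right (hb t (le_of_lt ht)) (norm_nonneg _))
  have hlim : ∀ x, Tendsto (fun τ : ℝ => ∫ t in (0:ℝ)..τ, T t x) atTop
      (𝓝 (∫ t in Ioi (0:ℝ), T t x)) := fun x =>
    intervalIntegral_tendsto_integral_Ioi 0 (hint x) tendsto_id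
  have hT0 : ∀ x, Tendsto (fun τ : ℝ => T τ x) atTop (𝓝 0) := by
    intro x
    apply squeeze_zero_norm' (a := fun t => K * Real.exp (-δ * t) * ‖x‖)
    · filter_upwards [eventually_ge_atTop 0] with t ht
      exact ((T t).le_opNorm x).trans (mul_le_mul_of_nonneg_right (hb t ht) (norm_nonneg _))
    · have h1 : Tendsto (fun t : ℝ => Real.exp (-δ * t)) atTop (𝓝 0) := by
        apply Real.tendsto_exp_atBot.comp
        exact tendsto_id.const_mul_atTop_of_neg (by linarith)
      have h2 := (h1.const_mul K).mul_const ‖x‖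
      simpa using h2
  let L : E →ₗ[ℂ] E :=
    { toFun := fun x => ∫ t in Ioi (0:ℝ), T t x
      map_add' := by
        intro x y
        simp only [_root_.map_add]
        exact integral_add (hint x) (hint y)
      map_smul' := by
        intro c x
        simp only [map_smul, RingHom.id_apply]
        exact integral_smul c _ }
  have hL : ∀ x, ‖L x‖ ≤ (∫ t in Ioi (0:ℝ), K * Real.exp (-δ * t)) * ‖x‖ := by
    intro x
    calc ‖L x‖ ≤ ∫ t in Ioi (0:ℝ), K * Real.exp (-δ * t) * ‖x‖ := by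
          apply norm_integral_le_of_norm_le
          · exact ((integrableOn_exp_mul_Ioi (by linarith : -δ < 0) 0).const_mul K).mul_const _
          · refine (ae_restrict_iff' measurableSet_Ioi).2 (ae_of_all _ fun t ht => ?_)
            exact ((T t).le_opNorm x).trans
              (mul_le_mul_of_nonneg_right (hb t (le_of_lt ht)) (norm_nonneg _))
      _ = _ := by rw [integral_mul_const]
  refine ⟨LinearMap.mkContinuous L _ hL, ⟨?_, ?_⟩, ?_⟩
  · intro y
    simp only [zero_smul, zero_sub, LinearMap.mkContinuous_apply]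
    unfold IsGen
    have h1 : ∀ h : ℝ, 0 < h → T h (L y) - L y = - ∫ t in (0:ℝ)..h, T t y := by
      intro h hh
      have a1 : Tendsto (fun τ : ℝ => T h (∫ t in (0:ℝ)..τ, T t y) - (∫ t in (0:ℝ)..τ, T t y))
          atTop (𝓝 (T h (L y) - L y)) :=
        (((T h).continuous.tendsto _).comp (hlim y)).sub (hlim y)
      have a2 : Tendsto (fun τ : ℝ => (∫ t in (0:ℝ)..(τ + h), T t y) -
          (∫ t in (0:ℝ)..τ, T t y) - ∫ t in (0:ℝ)..h, T t y) atTop
          (𝓝 (L y - L y - ∫ t in (0:ℝ)..h, T t y)) :=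
        (((hlim y).comp (tendsto_atTop_add_const_right _ h tendsto_id)).sub (hlim y)).sub
          tendsto_const_nhds
      have a3 := a1.congr' (f₂ := fun τ : ℝ => (∫ t in (0:ℝ)..(τ + h), T t y) -
          (∫ t in (0:ℝ)..τ, T t y) - ∫ t in (0:ℝ)..h, T t y) (by
        filter_upwards [eventually_ge_atTop 0] with τ hτ
        rw [hT.shift_key y hτ hh]
        have e4 := intervalIntegral.integral_add_adjacent_intervals
          (hT.ii y le_rfl hτ) (hT.ii y hτ (by linarith : (0:ℝ) ≤ τ + h))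
        rw [← e4]
        abel)
      have := tendsto_nhds_unique a3 a2
      rw [this]
      simp
    have h2 := (hT.tendsto_avg y le_rfl).neg
    simp only [hT.map_zero, zero_add] at h2
    refine h2.congr' ?_
    filter_upwards [self_mem_nhdsWithin] with h hh
    rw [h1 h hh, smul_neg]
  · intro x y hxy
    simp only [zero_smul, zero_sub, LinearMap.mkContinuous_apply, map_neg]
    have a1 : Tendsto (fun τ : ℝ => T τ x - x) atTop (𝓝 (0 - x)) :=
      (hT0 x).sub tendsto_const_nhds
    have a2 : Tendsto (fun τ : ℝ => T τ x - x) atTop (𝓝 (L y)) := by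
      refine (hlim y).congr' ?_
      filter_upwards [eventually_ge_atTop 0] with τ hτ
      exact (hT.sub_eq_integral hxy hτ).symm
    have := tendsto_nhds_unique a2 a1
    rw [this]
    simp
  · intro Q hQ hpos x hx
    have := hlim x
    refine hQ.closed.mem_of_tendsto this ?_
    filter_upwards [eventually_ge_atTop 0] with τ hτ
    exact hQ.integral_mem hτ (hT.ii x le_rfl hτ) fun t ht => hpos t ht.1.le x hx

/-- the resolvent to the right of the growth bound -/
lemma exists_resolvent (hT : IsC0Semigroup T) {K r : ℝ}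
    (hb : ∀ t, 0 ≤ t → ‖T t‖ ≤ K * Real.exp (r * t)) {z : ℂ} (hz : r < z.re) :
    ∃ R : E →L[ℂ] E, IsResolvent T z R := by
  have h1 : ∀ t, 0 ≤ t → ‖OHS.resc T z t‖ ≤ K * Real.exp (-(z.re - r) * t) := by
    intro t ht
    rw [norm_resc]
    calc _ ≤ Real.exp (-(z.re * t)) * (K * Real.exp (r * t)) :=
          mul_le_mul_of_nonneg_left (hb t ht) (Real.exp_pos _).le
      _ = K * (Real.exp (-(z.re * t)) * Real.exp (r * t)) := by ring
      _ = _ := by rw [← Real.exp_add]; congr 2; ring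
  obtain ⟨R, hR, -⟩ := (hT.resc z).exists_resolvent_zero (by linarith : 0 < z.re - r) h1
  have := hR.of_resc
  rw [zero_add] at this
  exact ⟨R, this⟩

/-- positivity of the resolvent at real points to the right of the growth bound -/
lemma exists_resolvent_pos (hT : IsC0Semigroup T) {K r : ℝ}
    (hb : ∀ t, 0 ≤ t → ‖T t‖ ≤ K * Real.exp (r * t)) {Q : Set E} (hQ : IsCone Q)
    (hpos : ∀ t, 0 ≤ t → ∀ x ∈ Q, T t x ∈ Q) {a : ℝ} (ha : r < a) :
    ∃ R : E →L[ℂ] E, IsResolvent T (a : ℂ) R ∧ ∀ x ∈ Q, R x ∈ Q := by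
  have h1 : ∀ t, 0 ≤ t → ‖OHS.resc T (a : ℂ) t‖ ≤ K * Real.exp (-(a - r) * t) := by
    intro t ht
    rw [norm_resc]
    simp only [Complex.ofReal_re]
    calc _ ≤ Real.exp (-(a * t)) * (K * Real.exp (r * t)) :=
          mul_le_mul_of_nonneg_left (hb t ht) (Real.exp_pos _).le
      _ = K * (Real.exp (-(a * t)) * Real.exp (r * t)) := by ring
      _ = _ := by rw [← Real.exp_add]; congr 2; ring
  obtain ⟨R, hR, hRQ⟩ := (hT.resc (a : ℂ)).exists_resolvent_zero (by linarith : 0 < a - r) h1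
  have := hR.of_resc
  rw [zero_add] at this
  refine ⟨R, this, hRQ Q hQ fun t ht x hx => ?_⟩
  rw [resc_apply]
  have e : Complex.exp (-((a : ℂ) * t)) = ((Real.exp (-(a * t)) : ℝ) : ℂ) := by push_cast; rfl
  rw [e]
  exact hQ.smul _ (Real.exp_pos _).le _ (hpos t ht x hx)

end IsC0Semigroup

end Run7.h205.OHS
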