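import Pool.Agent.Run7.h205.OHS.Res

/-! Positive resolvents at all real points to the right of the spectral bound. -/

open Filter Topology Set MeasureTheory

set_option linter.unusedSectionVars false

namespace Run7.h205.OHS

variable {E : Type*} [NormedAddCommGroup E] [NormedSpace ℂ E] [CompleteSpace E]
variable {T : ℝ → E →L[ℂ] E}

/-- resolvent identity -/
lemma IsResolvent.identity {l z : ℂ} {R R' : E →L[ℂ] E} (hR : IsResolvent T l R)
    (hR' : IsResolvent T z R') : R' - R = (l - z) • (R * R') := by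
  ext y
  have h1 := hR.left _ _ (hR'.right y)
  have e : l • R' y - (z • R' y - y) = (l - z) • R' y + y := by rw [sub_smul]; abel
  rw [e, map_add, map_smul] at h1
  change R' y - R y = (l - z) • R (R' y)
  exact (eq_sub_of_add_eq h1).symm

lemma IsResolvent.not_mem {l z : ℂ} {R R' : E →L[ℂ] E} (hR : IsResolvent T l R)
    (hR' : IsResolvent T z R') (hlz : l - z ≠ 0) : (l - z)⁻¹ ∉ spectrum ℂ R := by
  rw [spectrum.notMem_iff]
  have i1 := hR.identity hR'
  have i2 := hR'.identity hR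
  refine ⟨⟨(algebraMap ℂ (E →L[ℂ] E)) (l - z)⁻¹ - R, (l - z) • (1 + (l - z) • R'), ?_, ?_⟩, rfl⟩
  · rw [Algebra.algebraMap_eq_smul_one, sub_mul, smul_mul_smul_comm, inv_mul_cancel₀ hlz,
      one_smul, one_mul, mul_smul_comm, mul_add, mul_one, mul_smul_comm, ← i1]
    rw [smul_add, smul_sub]
    abel
  · have i3 : (l - z) • (R' * R) = R' - R := by
      have : (z - l) • (R' * R) = R - R' := i2.symm
      rw [← neg_sub l z, neg_smul] at this
      rw [← neg_sub R R', ← this, neg_neg]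
    rw [Algebra.algebraMap_eq_smul_one, mul_sub, smul_mul_smul_comm, mul_inv_cancel₀ hlz,
      one_smul, mul_one, smul_mul_assoc, add_mul, one_mul, smul_mul_assoc, i3]
    rw [smul_add, smul_sub]
    abel

lemma IsResolvent.radius {s l : ℝ} (hs : ∀ z ∈ genSpectrum T, z.re ≤ s) (hl : s < l)
    {R : E →L[ℂ] E} (hR : IsResolvent T (l : ℂ) R) :
    spectralRadius ℂ R ≤ ENNReal.ofReal (l - s)⁻¹ := by
  unfold spectralRadius
  apply iSup₂_le
  intro k hk
  by_cases hk0 : k = 0
  · simp [hk0]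
  set z : ℂ := l - k⁻¹ with hz
  have hzz : (l : ℂ) - z = k⁻¹ := by rw [hz]; ring
  have hzs : z ∈ genSpectrum T := by
    by_contra hcon
    unfold genSpectrum at hcon
    simp only [Set.mem_ofPred_eq, not_not] at hcon
    obtain ⟨R', hR'⟩ := hcon
    have := hR.not_mem hR' (by rw [hzz]; exact inv_ne_zero hk0)
    rw [hzz, inv_inv] at this
    exact this hk
  have h1 := hs z hzs
  have h2 : l - s ≤ ‖k⁻¹‖ := by
    calc l - s ≤ l - z.re := by linarith
      _ = (k⁻¹).re := by rw [← hzz]; simp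
      _ ≤ ‖k⁻¹‖ := Complex.re_le_norm _
  rw [norm_inv] at h2
  have h3 : ‖k‖ ≤ (l - s)⁻¹ := by
    rw [le_inv_comm₀ (norm_pos_iff.2 hk0) (by linarith)]
    exact h2
  rw [← ENNReal.ofReal_coe_nnreal]
  exact ENNReal.ofReal_le_ofReal h3

lemma summable_of_radius {R : E →L[ℂ] E} {ρ q : ℝ} (hρ : spectralRadius ℂ R ≤ ENNReal.ofReal ρ)
    (hρ0 : 0 < ρ) (hq : 0 ≤ q) (hqρ : q * ρ < 1) : Summable fun n : ℕ => ((q : ℂ) • R) ^ n := by
  -- choose ρ' slightly larger
  obtain ⟨ρ', h1, h2⟩ : ∃ ρ' : ℝ, ρ < ρ' ∧ q * ρ' < 1 := by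
    rcases hq.eq_or_lt with rfl | hq
    · exact ⟨ρ + 1, by linarith, by simp⟩
    · refine ⟨(ρ + q⁻¹) / 2, ?_, ?_⟩
      · have : ρ < q⁻¹ := by rw [lt_inv_comm₀ hρ0 hq]; rw [lt_inv_comm₀ hq hρ0]; rwa [← one_div, lt_div_iff₀ hq, mul_comm]
        linarith
      · have : q * ((ρ + q⁻¹) / 2) = (q * ρ + 1) / 2 := by field_simp
        rw [this]; linarith
  have hρ'0 : 0 < ρ' := by linarith
  have h3 : spectralRadius ℂ R < ENNReal.ofReal ρ' :=
    lt_of_le_of_lt hρ ((ENNReal.ofReal_lt_ofReal_iff (by linarith)).2 h1)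
  have h4 := (spectrum.pow_nnnorm_pow_one_div_tendsto_nhds_spectralRadius R).eventually
    (gt_mem_nhds h3)
  have h5 : ∀ᶠ n : ℕ in atTop, ‖((q : ℂ) • R) ^ n‖ ≤ (q * ρ') ^ n := by
    filter_upwards [h4, eventually_gt_atTop 0] with n hn hn0
    have hn' : (0:ℝ) < n := by exact_mod_cast hn0
    have a1 : (‖R ^ n‖₊ : ENNReal) < (ENNReal.ofReal ρ') ^ (n : ℝ) := by
      have := ENNReal.rpow_lt_rpow hn hn'
      rwa [← ENNReal.rpow_mul, one_div, inv_mul_cancel₀ hn'.ne', ENNReal.rpow_one] at this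
    rw [ENNReal.rpow_natCast, ← ENNReal.ofReal_pow (by linarith), ← ENNReal.ofReal_coe_nnreal,
      ENNReal.ofReal_lt_ofReal_iff (by positivity)] at a1
    rw [smul_pow, norm_smul, mul_pow]
    apply mul_le_mul _ a1.le (norm_nonneg _) (by positivity)
    rw [norm_pow]
    simp [abs_of_nonneg hq]
  have h6 : 0 ≤ q * ρ' := by positivity
  exact Summable.of_norm_bounded_eventually_nat (summable_geometric_of_lt_one h6 h2) h5

/-- positive resolvents to the right of the spectral bound -/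
lemma IsResolvent.real_pos {s l μ : ℝ} (hs : ∀ z ∈ genSpectrum T, z.re ≤ s) (h1 : s < μ)
    (h2 : μ ≤ l) {R : E →L[ℂ] E} (hR : IsResolvent T (l : ℂ) R) {Q : Set E} (hQ : IsCone Q)
    (hRQ : ∀ x ∈ Q, R x ∈ Q) :
    ∃ R' : E →L[ℂ] E, (∀ y, IsGen T (R' y) ((μ : ℂ) • R' y - y)) ∧ ∀ x ∈ Q, R' x ∈ Q := by
  have hrad := hR.radius hs (h1.trans_le h2)
  have hsum := summable_of_radius (q := l - μ) hrad (inv_pos.2 (by linarith)) (by linarith)
    (by rw [← div_eq_mul_inv, div_lt_one (by linarith)]; linarith)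
  set S : E →L[ℂ] E := ((l - μ : ℝ) : ℂ) • R with hS
  set N : E →L[ℂ] E := ∑' n : ℕ, S ^ n with hN
  have hN1 : (1 - S) * N = 1 := hsum.one_sub_mul_tsum_pow
  refine ⟨R * N, fun y => ?_, fun x hx => ?_⟩
  · have e1 := hR.right (N y)
    have e2 : (l : ℂ) • R (N y) - N y = (μ : ℂ) • (R * N) y - y := by
      have e3 : N y - S (N y) = y := by
        have := congrArg (fun B : E →L[ℂ] E => B y) hN1
        simpa using this
      have e4 : S (N y) = ((l - μ : ℝ) : ℂ) • R (N y) := rfl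
      change (l : ℂ) • R (N y) - N y = (μ : ℂ) • R (N y) - y
      have e5 : N y = y + ((l - μ : ℝ) : ℂ) • R (N y) := by
        rw [← e4]
        exact sub_eq_iff_eq_add.1 e3
      have e6 : ((l - μ : ℝ) : ℂ) • R (N y) = (l : ℂ) • R (N y) - (μ : ℂ) • R (N y) := by
        push_cast
        rw [sub_smul]
      have e7 : N y = y + ((l : ℂ) • R (N y) - (μ : ℂ) • R (N y)) := by rw [← e6]; exact e5
      have : (l : ℂ) • R (N y) - N y = (l : ℂ) • R (N y) - (y + ((l : ℂ) • R (N y) - (μ : ℂ) • R (N y))) := by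
        rw [← e7]
      rw [this]
      abel
    rw [e2] at e1
    exact e1
  · change R (N x) ∈ Q
    apply hRQ
    have hpow : ∀ n : ℕ, (S ^ n) x ∈ Q := by
      intro n
      induction n with
      | zero => simpa using hx
      | succ n ih =>
        rw [pow_succ']
        change ((l - μ : ℝ) : ℂ) • R ((S ^ n) x) ∈ Q
        exact hQ.smul _ (by linarith) _ (hRQ _ ih)
    have hfin : ∀ F : Finset ℕ, ∑ n ∈ F, (S ^ n) x ∈ Q := by
      intro F
      induction F using Finset.induction_on with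
      | empty => simpa using hQ.zero
      | insert a F ha ih =>
        rw [Finset.sum_insert ha]
        exact hQ.add _ (hpow a) _ ih
    have ht : HasSum (fun n : ℕ => (S ^ n) x) (N x) := by
      have := hsum.hasSum.mapL (ContinuousLinearMap.apply ℂ E x)
      simpa using this
    exact hQ.closed.mem_of_tendsto ht (Eventually.of_forall hfin)

end Run7.h205.OHS
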