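import Pool.Agent.Run7.h205.OHS.Spec

/-! Uniform bounds for the truncated Laplace transform of a positive semigroup. -/

open Filter Topology Set MeasureTheory

set_option linter.unusedSectionVars false
set_option linter.unusedVariables false

namespace Run7.h205.OHS

variable {E : Type*} [NormedAddCommGroup E] [NormedSpace ℂ E] [CompleteSpace E]
variable {T : ℝ → E →L[ℂ] E}

/-- normality -/
def NormalC (Q : Set E) (c : ℝ) : Prop := ∀ x ∈ Q, ∀ y : E, y - x ∈ Q → ‖x‖ ≤ c * ‖y‖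

/-- generating in the complex sense -/
def GenC (Q : Set E) : Prop :=
  ∀ z : E, ∃ a ∈ Q, ∃ b ∈ Q, ∃ a' ∈ Q, ∃ b' ∈ Q, z = (a - b) + Complex.I • (a' - b')

lemma resc_real_pos (hT : IsC0Semigroup T) {Q : Set E} (hQ : IsCone Q)
    (hpos : ∀ t, 0 ≤ t → ∀ x ∈ Q, T t x ∈ Q) (μ : ℝ) :
    ∀ t, 0 ≤ t → ∀ x ∈ Q, resc T (μ : ℂ) t x ∈ Q := by
  intro t ht x hx
  rw [resc_apply]
  have e : Complex.exp (-((μ : ℂ) * t)) = ((Real.exp (-(μ * t)) : ℝ) : ℂ) := by push_cast; rfl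
  rw [e]
  exact hQ.smul _ (Real.exp_pos _).le _ (hpos t ht x hx)

/-- an oscillating integral of a positive orbit is bounded by the plain integral -/
lemma osc_bound (hT : IsC0Semigroup T) {Q : Set E} (hQ : IsCone Q) {c : ℝ} (hN : NormalC Q c)
    (hc : 0 ≤ c) (hpos : ∀ t, 0 ≤ t → ∀ x ∈ Q, T t x ∈ Q) {τ : ℝ} (hτ : 0 ≤ τ) {x : E}
    (hx : x ∈ Q) (w : ℝ → ℝ) (hw : Continuous w) (hw1 : ∀ t, |w t| ≤ 1) :
    ‖∫ t in (0:ℝ)..τ, ((w t : ℝ) : ℂ) • T t x‖ ≤ (2 * c + 1) * ‖∫ t in (0:ℝ)..τ, T t x‖ := by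
  set U := ∫ t in (0:ℝ)..τ, ((w t : ℝ) : ℂ) • T t x with hU
  set V := ∫ t in (0:ℝ)..τ, T t x with hV
  have i1 := hT.ii x le_rfl hτ
  have i2 : IntervalIntegrable (fun t => ((w t : ℝ) : ℂ) • T t x) volume 0 τ := by
    apply ContinuousOn.intervalIntegrable
    rw [uIcc_of_le hτ]
    apply ContinuousOn.smul
    · exact (Complex.continuous_ofReal.comp hw).continuousOn
    · exact (hT.cont x).mono Icc_subset_Ici_self
  have m1 : V + U ∈ Q := by
    rw [hU, hV, ← intervalIntegral.integral_add i1 i2]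
    apply hQ.integral_mem hτ (i1.add i2)
    intro t ht
    have := hQ.smul (1 + w t) (by linarith [neg_le_of_abs_le (hw1 t)]) _ (hpos t ht.1.le x hx)
    have e : ((1 + w t : ℝ) : ℂ) • T t x = T t x + ((w t : ℝ) : ℂ) • T t x := by
      push_cast
      rw [add_smul, one_smul]
    rwa [e] at this
  have m2 : V - U ∈ Q := by
    rw [hU, hV, ← intervalIntegral.integral_sub i1 i2]
    apply hQ.integral_mem hτ (i1.sub i2)
    intro t ht
    have := hQ.smul (1 - w t) (by linarith [le_of_abs_le (hw1 t)]) _ (hpos t ht.1.le x hx)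
    have e : ((1 - w t : ℝ) : ℂ) • T t x = T t x - ((w t : ℝ) : ℂ) • T t x := by
      push_cast
      rw [sub_smul, one_smul]
    rwa [e] at this
  have h1 : ‖V + U‖ ≤ c * ‖V + V‖ := by
    apply hN _ m1
    have : V + V - (V + U) = V - U := by abel
    rwa [this]
  have h2 : ‖U‖ ≤ ‖V + U‖ + ‖V‖ := by
    calc ‖U‖ = ‖(V + U) - V‖ := by congr 1; abel
      _ ≤ _ := norm_sub_le _ _
  have h3 : ‖V + V‖ ≤ 2 * ‖V‖ := by
    calc _ ≤ ‖V‖ + ‖V‖ := norm_add_le _ _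
      _ = _ := by ring
  nlinarith [mul_le_mul_of_nonneg_left h3 hc]

/-- the uniform bound -/
lemma unif_bound (hT : IsC0Semigroup T) {Q : Set E} (hQ : IsCone Q) {c : ℝ} (hc : 0 ≤ c)
    (hN : NormalC Q c) (hG : GenC Q) (hpos : ∀ t, 0 ≤ t → ∀ x ∈ Q, T t x ∈ Q)
    {s : ℝ} (hs : ∀ z ∈ genSpectrum T, z.re ≤ s) {μ : ℝ} (hμ : s < μ) :
    ∃ K : ℝ, 0 ≤ K ∧ ∀ τ, 0 ≤ τ → ∀ (θ : ℝ) (x : E),
      ‖∫ t in (0:ℝ)..τ, resc (resc T (μ : ℂ)) (((θ : ℝ) : ℂ) * Complex.I) t x‖ ≤ K * ‖x‖ := by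
  obtain ⟨w, K0, hK0, hw⟩ := hT.exists_exp_bound
  obtain ⟨R, hR, hRQ⟩ := hT.exists_resolvent_pos hw hQ hpos
    (lt_of_lt_of_le (lt_add_one w) (le_max_left (w + 1) μ))
  obtain ⟨R', hR', hRQ'⟩ := hR.real_pos hs hμ (le_max_right (w + 1) μ) hQ hRQ
  set S := resc T (μ : ℂ) with hS
  have hSC : IsC0Semigroup S := hT.resc _
  have hSpos : ∀ t, 0 ≤ t → ∀ x ∈ Q, S t x ∈ Q := resc_real_pos hT hQ hpos μ
  -- the plain integral
  have hV : ∀ x ∈ Q, ∀ τ, 0 ≤ τ → ‖∫ t in (0:ℝ)..τ, S t x‖ ≤ c * ‖R' x‖ := by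
    intro x hx τ hτ
    have g1 : IsGen S (R' x) (-x) := by
      have := isGen_resc (μ := (μ : ℂ)) (hR' x)
      have e : (μ : ℂ) • R' x - x - (μ : ℂ) • R' x = -x := by abel
      rwa [e] at this
    have g2 := hSC.sub_eq_integral g1 hτ
    have g3 : ∫ t in (0:ℝ)..τ, S t (-x) = - ∫ t in (0:ℝ)..τ, S t x := by
      rw [← intervalIntegral.integral_neg]
      apply intervalIntegral.integral_congr
      intro t _
      simp only [map_neg]
    rw [g3] at g2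
    apply hN
    · exact hQ.integral_mem hτ (hSC.ii x le_rfl hτ) fun t ht => hSpos t ht.1.le x hx
    · have : R' x - ∫ t in (0:ℝ)..τ, S t x = S τ (R' x) := by
        rw [sub_eq_add_neg, ← g2]; abel
      rw [this]
      exact hSpos τ hτ _ (hRQ' x hx)
  -- the oscillating integrals, on the cone
  have hO : ∀ x ∈ Q, ∃ C, ∀ τ, 0 ≤ τ → ∀ θ : ℝ,
      ‖∫ t in (0:ℝ)..τ, resc S (((θ : ℝ) : ℂ) * Complex.I) t x‖ ≤ C := by
    intro x hx
    refine ⟨(2 * c + 1) * (c * ‖R' x‖) + (2 * c + 1) * (c * ‖R' x‖), fun τ hτ θ => ?_⟩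
    have e : ∫ t in (0:ℝ)..τ, resc S (((θ : ℝ) : ℂ) * Complex.I) t x =
        (∫ t in (0:ℝ)..τ, ((Real.cos (θ * t) : ℝ) : ℂ) • S t x) -
          Complex.I • ∫ t in (0:ℝ)..τ, ((Real.sin (θ * t) : ℝ) : ℂ) • S t x := by
      have i1 : IntervalIntegrable (fun t => ((Real.cos (θ * t) : ℝ) : ℂ) • S t x) volume 0 τ := by
        apply ContinuousOn.intervalIntegrable
        rw [uIcc_of_le hτ]
        apply ContinuousOn.smul
        · fun_prop
        · exact (hSC.cont x).mono Icc_subset_Ici_self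
      have i2 : IntervalIntegrable (fun t => ((Real.sin (θ * t) : ℝ) : ℂ) • S t x) volume 0 τ := by
        apply ContinuousOn.intervalIntegrable
        rw [uIcc_of_le hτ]
        apply ContinuousOn.smul
        · fun_prop
        · exact (hSC.cont x).mono Icc_subset_Ici_self
      have i3 : IntervalIntegrable (fun t => Complex.I • ((Real.sin (θ * t) : ℝ) : ℂ) • S t x)
          volume 0 τ := i2.smul Complex.I
      rw [← intervalIntegral.integral_smul, ← intervalIntegral.integral_sub i1 i3]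
      apply intervalIntegral.integral_congr
      intro t _
      simp only
      rw [resc_apply, smul_smul, ← sub_smul]
      congr 1
      have : -((θ : ℂ) * Complex.I * (t : ℂ)) = ((-(θ * t) : ℝ) : ℂ) * Complex.I := by
        push_cast; ring
      rw [this, Complex.exp_mul_I, ← Complex.ofReal_cos, ← Complex.ofReal_sin, Real.cos_neg,
        Real.sin_neg]
      push_cast
      ring
    rw [e]
    have b1 := osc_bound hSC hQ hN hc hSpos hτ hx (fun t => Real.cos (θ * t)) (by fun_prop)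
      (fun t => Real.abs_cos_le_one _)
    have b2 := osc_bound hSC hQ hN hc hSpos hτ hx (fun t => Real.sin (θ * t)) (by fun_prop)
      (fun t => Real.abs_sin_le_one _)
    have b3 := hV x hx τ hτ
    have b4 : 0 ≤ 2 * c + 1 := by linarith
    calc _ ≤ ‖∫ t in (0:ℝ)..τ, ((Real.cos (θ * t) : ℝ) : ℂ) • S t x‖ +
          ‖Complex.I • ∫ t in (0:ℝ)..τ, ((Real.sin (θ * t) : ℝ) : ℂ) • S t x‖ := norm_sub_le _ _
      _ ≤ _ := by
        rw [norm_smul, Complex.norm_I, one_mul]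
        exact add_le_add (b1.trans (mul_le_mul_of_nonneg_left b3 b4))
          (b2.trans (mul_le_mul_of_nonneg_left b3 b4))
  choose! V hVop using fun (τ : ℝ) (hτ : 0 ≤ τ) (θ : ℝ) =>
    (hSC.resc (((θ : ℝ) : ℂ) * Complex.I)).exists_Vop hτ
  have hBS := banach_steinhaus (g := fun p : {p : ℝ × ℝ // 0 ≤ p.1} => V p.1.1 p.1.2) (by
    intro z
    obtain ⟨a, ha, b, hb, a', ha', b', hb', rfl⟩ := hG z
    obtain ⟨C1, hC1⟩ := hO a ha
    obtain ⟨C2, hC2⟩ := hO b hb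
    obtain ⟨C3, hC3⟩ := hO a' ha'
    obtain ⟨C4, hC4⟩ := hO b' hb'
    refine ⟨(C1 + C2) + (C3 + C4), ?_⟩
    rintro ⟨⟨τ, θ⟩, hτ⟩
    simp only at hτ ⊢
    have k1 := hC1 τ hτ θ
    have k2 := hC2 τ hτ θ
    have k3 := hC3 τ hτ θ
    have k4 := hC4 τ hτ θ
    rw [← hVop τ hτ θ] at k1 k2 k3 k4
    rw [map_add, map_smul, map_sub, map_sub]
    calc _ ≤ ‖V τ θ a - V τ θ b‖ + ‖Complex.I • (V τ θ a' - V τ θ b')‖ := norm_add_le _ _
      _ ≤ (‖V τ θ a‖ + ‖V τ θ b‖) + (‖V τ θ a'‖ + ‖V τ θ b'‖) := by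
        rw [norm_smul, Complex.norm_I, one_mul]
        exact add_le_add (norm_sub_le _ _) (norm_sub_le _ _)
      _ ≤ _ := add_le_add (add_le_add k1 k2) (add_le_add k3 k4))
  obtain ⟨K, hK⟩ := hBS
  refine ⟨max K 0, le_max_right _ _, fun τ hτ θ x => ?_⟩
  have := hK ⟨(τ, θ), hτ⟩
  rw [← hVop τ hτ θ]
  exact ((V τ θ).le_opNorm x).trans
    (mul_le_mul_of_nonneg_right (this.trans (le_max_left _ _)) (norm_nonneg _))

end Run7.h205.OHS
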